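import Mathlib

set_option autoImplicit false

/-! The censored walk on a monotone subset of the hypercube can mix exponentially slowly: for
`n = 2 k` let `A` consist of the points whose first `k` coordinates are all `1` together with the
points whose last `k` coordinates are all `1`. The two subcubes meet in the point `(1, …, 1)` only,
and every path from one to the other visits this point. -/

namespace Pool.Agent.Results.MP_52661b_pr.SlowMonotoneSets

open Finset

/-- The hypercube. -/
abbrev Cube (n : ℕ) : Type := Fin n → Bool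

/-- The point obtained by flipping coordinate `i`. -/
def flp {n : ℕ} (x : Cube n) (i : Fin n) : Cube n := Function.update x i (!(x i))

/-- `A` is monotone (up-closed). -/
def IsUp {n : ℕ} (A : Finset (Cube n)) : Prop :=
  ∀ x ∈ A, ∀ y : Cube n, (∀ i, x i ≤ y i) → y ∈ A

/-- The move with coordinate `i`: flip the coordinate if the result is in `A`. -/
def mv {n : ℕ} (A : Finset (Cube n)) (x : Cube n) (i : Fin n) : Cube n :=
  if flp x i ∈ A then flp x i else x

/-- Transition matrix of the lazy censored walk on `A`. -/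
noncomputable def P {n : ℕ} (A : Finset (Cube n)) : Matrix A A ℝ := fun x y =>
  (1 / 2) * (if y = x then 1 else 0) +
    (1 / 2) * (((univ.filter (fun i : Fin n => mv A x.1 i = y.1)).card : ℝ) / n)

/-- Total variation distance. -/
noncomputable def tv {n : ℕ} {A : Finset (Cube n)} (μ ν : A → ℝ) : ℝ :=
  (1 / 2) * ∑ y, |μ y - ν y|

/-- The uniform distribution on `A`. -/
noncomputable def unif {n : ℕ} (A : Finset (Cube n)) : A → ℝ := fun _ => 1 / (A.card : ℝ)

/-- From every start the law after `t` steps is within `1/4` of uniform. -/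
def Mixed {n : ℕ} (A : Finset (Cube n)) (t : ℕ) : Prop :=
  ∀ x : A, tv ((P A ^ t) x) (unif A) ≤ 1 / 4

section walk

variable {n : ℕ} {A : Finset (Cube n)}

lemma flp_flp (x : Cube n) (i : Fin n) : flp (flp x i) i = x := by
  funext j
  by_cases h : j = i
  · subst h; simp [flp]
  · simp [flp, h]

lemma mv_symm_iff (x y : A) (hxy : x ≠ y) (i : Fin n) : mv A x.1 i = y.1 ↔ mv A y.1 i = x.1 := by
  have key : ∀ x y : A, x ≠ y → mv A x.1 i = y.1 → mv A y.1 i = x.1 := by
    intro x y hxy h
    unfold mv at h
    split_ifs at h with h1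
    · have h2 : flp y.1 i = x.1 := by rw [← h, flp_flp]
      unfold mv
      rw [h2, if_pos x.2]
    · exact absurd (Subtype.ext h) hxy
  exact ⟨key x y hxy, key y x hxy.symm⟩

lemma P_symm (x y : A) : P A x y = P A y x := by
  by_cases hxy : x = y
  · rw [hxy]
  · unfold P
    have h1 : (univ.filter (fun i : Fin n => mv A x.1 i = y.1)) =
        (univ.filter (fun i : Fin n => mv A y.1 i = x.1)) := by
      ext i
      simp only [mem_filter, mem_univ, true_and]
      exact mv_symm_iff x y hxy i
    rw [h1, if_neg (fun h => hxy h.symm), if_neg hxy]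

lemma P_nonneg (x y : A) : 0 ≤ P A x y := by
  unfold P
  positivity

lemma mv_mem (x : A) (i : Fin n) : mv A x.1 i ∈ A := by
  unfold mv
  split_ifs with h
  · exact h
  · exact x.2

lemma P_row (hn : 0 < n) (x : A) : ∑ y, P A x y = 1 := by
  unfold P
  rw [sum_add_distrib, ← mul_sum, ← mul_sum, ← sum_div]
  have h1 : ∑ y : A, (if y = x then (1 : ℝ) else 0) = 1 := by simp
  have h2 : ∑ y : A, ((univ.filter (fun i : Fin n => mv A x.1 i = y.1)).card : ℝ) = n := by
    have h3 : ∑ y : A, (univ.filter (fun i : Fin n => mv A x.1 i = y.1)).card = n := by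
      have h4 := Finset.card_eq_sum_card_fiberwise (s := (univ : Finset (Fin n)))
        (t := (univ : Finset A)) (f := fun i => (⟨mv A x.1 i, mv_mem x i⟩ : A))
        (fun i _ => mem_univ _)
      simp only [card_univ, Fintype.card_fin] at h4
      refine Eq.trans (sum_congr rfl fun y _ => ?_) h4.symm
      congr 1
      ext i
      simp only [mem_filter, mem_univ, true_and, Subtype.ext_iff]
    exact_mod_cast h3
  rw [h1, h2]
  have : (n : ℝ) ≠ 0 := by exact_mod_cast hn.ne'
  field_simp
  norm_num

lemma Pt_nonneg (t : ℕ) (x y : A) : 0 ≤ (P A ^ t) x y := by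
  induction t generalizing x y with
  | zero => rw [pow_zero, Matrix.one_apply]; split_ifs <;> norm_num
  | succ t ih =>
    rw [pow_succ, Matrix.mul_apply]
    exact sum_nonneg fun z _ => mul_nonneg (ih x z) (P_nonneg z y)

lemma Pt_row (hn : 0 < n) (t : ℕ) (x : A) : ∑ y, (P A ^ t) x y = 1 := by
  induction t generalizing x with
  | zero => simp [Matrix.one_apply]
  | succ t ih =>
    simp only [pow_succ, Matrix.mul_apply]
    rw [sum_comm]
    simp_rw [← mul_sum, P_row hn, mul_one]
    exact ih x

lemma Pt_symm (t : ℕ) (x y : A) : (P A ^ t) x y = (P A ^ t) y x := by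
  have h1 : (P A).transpose = P A := by
    ext x y
    exact P_symm y x
  have h2 : (P A ^ t).transpose = P A ^ t := by rw [Matrix.transpose_pow, h1]
  calc (P A ^ t) x y = (P A ^ t).transpose y x := rfl
    _ = (P A ^ t) y x := by rw [h2]

/-- The mass transported from `U` to
`V` in `t` steps is at most `t`, when the only point outside of `V` next to `V` is `e`. -/
lemma transport (hn : 0 < n) (U V : Finset A) (e : A) (hUV : Disjoint U V)
    (hV : ∀ x : A, x ∉ V → x ≠ e → ∀ y ∈ V, P A x y = 0) (t : ℕ) :
    ∑ x ∈ U, ∑ y ∈ V, (P A ^ t) x y ≤ t := by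
  induction t with
  | zero =>
    simp only [pow_zero, Matrix.one_apply, Nat.cast_zero]
    refine (sum_eq_zero fun x hx => sum_eq_zero fun y hy => ?_).le
    rw [if_neg]
    rintro rfl
    exact disjoint_left.mp hUV hx hy
  | succ t ih =>
    have key : ∀ x ∈ U, ∑ y ∈ V, (P A ^ (t + 1)) x y ≤ ∑ y ∈ V, (P A ^ t) x y + (P A ^ t) x e := by
      intro x _
      have h1 : ∑ y ∈ V, (P A ^ (t + 1)) x y = ∑ z, (P A ^ t) x z * ∑ y ∈ V, P A z y := by
        simp only [pow_succ, Matrix.mul_apply]
        rw [sum_comm]
        simp_rw [mul_sum]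
      rw [h1]
      have hle1 : ∀ z, ∑ y ∈ V, P A z y ≤ 1 := fun z => by
        rw [← P_row hn z]
        exact sum_le_sum_of_subset_of_nonneg (subset_univ _) fun y _ _ => P_nonneg z y
      have h2 : ∀ z, (P A ^ t) x z * ∑ y ∈ V, P A z y ≤
          (if z ∈ V then (P A ^ t) x z else 0) + (if z = e then (P A ^ t) x z else 0) := by
        intro z
        have hp := Pt_nonneg t x z
        by_cases hz : z ∈ V
        · rw [if_pos hz]
          have : (P A ^ t) x z * ∑ y ∈ V, P A z y ≤ (P A ^ t) x z :=
            mul_le_of_le_one_right hp (hle1 z)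
          have h3 : 0 ≤ (if z = e then (P A ^ t) x z else 0) := by split_ifs <;> simp [hp]
          linarith
        · by_cases hze : z = e
          · rw [if_neg hz, if_pos hze, zero_add]
            exact mul_le_of_le_one_right hp (hle1 z)
          · rw [sum_eq_zero fun y hy => hV z hz hze y hy]
            simp [hz, hze]
      refine (sum_le_sum fun z _ => h2 z).trans (le_of_eq ?_)
      rw [sum_add_distrib]
      congr 1
      · rw [← sum_filter]
        congr 1
        ext z; simp
      · simp
    calc ∑ x ∈ U, ∑ y ∈ V, (P A ^ (t + 1)) x y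
        ≤ ∑ x ∈ U, (∑ y ∈ V, (P A ^ t) x y + (P A ^ t) x e) := sum_le_sum key
      _ = ∑ x ∈ U, ∑ y ∈ V, (P A ^ t) x y + ∑ x ∈ U, (P A ^ t) x e := sum_add_distrib
      _ ≤ t + 1 := by
          refine add_le_add ih ?_
          calc ∑ x ∈ U, (P A ^ t) x e = ∑ x ∈ U, (P A ^ t) e x :=
                sum_congr rfl fun x _ => Pt_symm t x e
            _ ≤ ∑ x, (P A ^ t) e x :=
                sum_le_sum_of_subset_of_nonneg (subset_univ _) fun y _ _ => Pt_nonneg t e y
            _ = 1 := Pt_row hn t e
      _ = ((t + 1 : ℕ) : ℝ) := by push_cast; ring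

/-- The mass of a set after `t` steps differs from its uniform mass by at most the total variation
distance. -/
lemma mass (hn : 0 < n) (hA : A.Nonempty) (t : ℕ) (x : A) (V : Finset A) :
    (V.card : ℝ) / A.card - tv ((P A ^ t) x) (unif A) ≤ ∑ y ∈ V, (P A ^ t) x y := by
  have hu : ∑ y : A, unif A y = 1 := by
    unfold unif
    have : (A.card : ℝ) ≠ 0 := by exact_mod_cast hA.card_pos.ne'
    simp [this]
  have h0 : ∑ y : A, ((P A ^ t) x y - unif A y) = 0 := by
    rw [sum_sub_distrib, Pt_row hn, hu, sub_self]
  have h1 : ∑ y ∈ V, ((P A ^ t) x y - unif A y) + ∑ y ∈ Vᶜ, ((P A ^ t) x y - unif A y) = 0 := by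
    rw [sum_add_sum_compl, h0]
  have h2 : ∑ y ∈ V, |(P A ^ t) x y - unif A y| + ∑ y ∈ Vᶜ, |(P A ^ t) x y - unif A y| =
      ∑ y : A, |(P A ^ t) x y - unif A y| := sum_add_sum_compl _ _
  have h3 : -∑ y ∈ V, ((P A ^ t) x y - unif A y) ≤ ∑ y ∈ V, |(P A ^ t) x y - unif A y| := by
    rw [← sum_neg_distrib]
    exact sum_le_sum fun y _ => neg_le_abs _
  have h4 : ∑ y ∈ Vᶜ, ((P A ^ t) x y - unif A y) ≤ ∑ y ∈ Vᶜ, |(P A ^ t) x y - unif A y| :=
    sum_le_sum fun y _ => le_abs_self _
  have h5 : ∑ y ∈ V, ((P A ^ t) x y - unif A y) = ∑ y ∈ V, (P A ^ t) x y - V.card / A.card := by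
    rw [sum_sub_distrib]
    congr 1
    unfold unif
    rw [sum_const, nsmul_eq_mul]
    ring
  unfold tv
  linarith

end walk

section example_

variable (k : ℕ)

/-- The two subcubes of `{0,1}^(2k)`. -/
def two : Finset (Cube (k + k)) :=
  univ.filter fun x => (∀ i : Fin k, x (Fin.castAdd k i) = true) ∨
    (∀ i : Fin k, x (Fin.natAdd k i) = true)

lemma mem_two (x : Cube (k + k)) : x ∈ two k ↔ (∀ i : Fin k, x (Fin.castAdd k i) = true) ∨
    (∀ i : Fin k, x (Fin.natAdd k i) = true) := by simp [two]

lemma two_up : IsUp (two k) := by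
  intro x hx y hxy
  rw [mem_two] at hx ⊢
  rcases hx with hx | hx
  · left; intro i
    have := hxy (Fin.castAdd k i)
    rw [hx i] at this
    exact top_le_iff.mp this
  · right; intro i
    have := hxy (Fin.natAdd k i)
    rw [hx i] at this
    exact top_le_iff.mp this

lemma two_top : (fun _ => true : Cube (k + k)) ∈ two k := by
  rw [mem_two]; left; intro i; rfl

/-- The first subcube without `(1, …, 1)`. -/
def cU : Finset (Cube (k + k)) :=
  univ.filter fun x => (∀ i : Fin k, x (Fin.castAdd k i) = true) ∧ x ≠ fun _ => true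

/-- The second subcube without `(1, …, 1)`. -/
def cV : Finset (Cube (k + k)) :=
  univ.filter fun x => (∀ i : Fin k, x (Fin.natAdd k i) = true) ∧ x ≠ fun _ => true

lemma card_cU : (cU k).card = 2 ^ k - 1 := by
  have h1 : cU k = ((univ.erase (fun _ => true : Cube k)).image
      (fun z : Cube k => (Fin.append (fun _ => true : Cube k) z : Cube (k + k)))) := by
    ext x
    simp only [cU, mem_filter, mem_univ, true_and, mem_image, mem_erase, ne_eq, and_true]
    constructor
    · rintro ⟨h, hne⟩
      refine ⟨fun i => x (Fin.natAdd k i), ?_, ?_⟩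
      · intro h2
        apply hne
        funext j
        refine Fin.addCases (fun i => ?_) (fun i => ?_) j
        · exact h i
        · exact congrFun h2 i
      · funext j
        refine Fin.addCases (fun i => ?_) (fun i => ?_) j
        · rw [Fin.append_left, h i]
        · rw [Fin.append_right]
    · rintro ⟨z, hz, rfl⟩
      refine ⟨fun i => by rw [Fin.append_left], fun h => hz ?_⟩
      funext i
      have := congrFun h (Fin.natAdd k i)
      rwa [Fin.append_right] at this
  rw [h1, card_image_of_injective]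
  · rw [card_erase_of_mem (mem_univ _)]
    simp
  · intro a b h
    funext i
    have := congrFun h (Fin.natAdd k i)
    simp only [Fin.append_right] at this
    exact this

lemma card_cV : (cV k).card = 2 ^ k - 1 := by
  have h1 : cV k = ((univ.erase (fun _ => true : Cube k)).image
      (fun z : Cube k => (Fin.append z (fun _ => true : Cube k) : Cube (k + k)))) := by
    ext x
    simp only [cV, mem_filter, mem_univ, true_and, mem_image, mem_erase, ne_eq, and_true]
    constructor
    · rintro ⟨h, hne⟩
      refine ⟨fun i => x (Fin.castAdd k i), ?_, ?_⟩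
      · intro h2
        apply hne
        funext j
        refine Fin.addCases (fun i => ?_) (fun i => ?_) j
        · exact congrFun h2 i
        · exact h i
      · funext j
        refine Fin.addCases (fun i => ?_) (fun i => ?_) j
        · rw [Fin.append_left]
        · rw [Fin.append_right, h i]
    · rintro ⟨z, hz, rfl⟩
      refine ⟨fun i => by rw [Fin.append_right], fun h => hz ?_⟩
      funext i
      have := congrFun h (Fin.castAdd k i)
      rwa [Fin.append_left] at this
  rw [h1, card_image_of_injective]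
  · rw [card_erase_of_mem (mem_univ _)]
    simp
  · intro a b h
    funext i
    have := congrFun h (Fin.castAdd k i)
    simp only [Fin.append_left] at this
    exact this

lemma disj_UV : Disjoint (cU k) (cV k) := by
  rw [disjoint_left]
  intro x hU hV
  simp only [cU, cV, mem_filter, mem_univ, true_and] at hU hV
  apply hU.2
  funext j
  refine Fin.addCases (fun i => ?_) (fun i => ?_) j
  · exact hU.1 i
  · exact hV.1 i

lemma two_eq : two k = insert (fun _ => true) (cU k ∪ cV k) := by
  ext x
  simp only [mem_two, mem_insert, mem_union, cU, cV, mem_filter, mem_univ, true_and]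
  constructor
  · intro h
    by_cases hx : x = fun _ => true
    · exact Or.inl hx
    · rcases h with h | h
      · exact Or.inr (Or.inl ⟨h, hx⟩)
      · exact Or.inr (Or.inr ⟨h, hx⟩)
  · rintro (h | h | h)
    · left; intro i; rw [h]
    · exact Or.inl h.1
    · exact Or.inr h.1

lemma card_two : (two k).card = 2 * (2 ^ k - 1) + 1 := by
  rw [two_eq, card_insert_of_notMem, card_union_of_disjoint (disj_UV k), card_cU, card_cV]
  · ring
  · simp [cU, cV]

/-- There is no step from the first subcube to the second one except via `(1, …, 1)`. -/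
lemma no_step (x y : Cube (k + k)) (hx : x ∈ cU k) (hy : y ∈ cV k) (i : Fin (k + k)) :
    mv (two k) x i ≠ y := by
  simp only [cU, cV, mem_filter, mem_univ, true_and] at hx hy
  -- `x` has a zero in the second half, `y` in the first half
  have h1 : ∃ a : Fin k, x (Fin.natAdd k a) = false := by
    by_contra h
    push Not at h
    apply hx.2
    funext j
    refine Fin.addCases (fun i => hx.1 i) (fun i => ?_) j
    simpa using h i
  have h2 : ∃ b : Fin k, y (Fin.castAdd k b) = false := by
    by_contra h
    push Not at h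
    apply hy.2
    funext j
    refine Fin.addCases (fun i => ?_) (fun i => hy.1 i) j
    simpa using h i
  obtain ⟨a, ha⟩ := h1
  obtain ⟨b, hb⟩ := h2
  intro h
  have h3 : x (Fin.natAdd k a) ≠ mv (two k) x i (Fin.natAdd k a) := by
    rw [h, hy.1 a, ha]; decide
  have h4 : x (Fin.castAdd k b) ≠ mv (two k) x i (Fin.castAdd k b) := by
    rw [h, hb, hx.1 b]; decide
  have h5 : ∀ j, x j ≠ mv (two k) x i j → j = i := by
    intro j hj
    by_contra hji
    apply hj
    unfold mv
    split_ifs
    · simp [flp, hji]
    · rfl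
  have h6 := h5 _ h3
  have h7 := h5 _ h4
  rw [← h7] at h6
  have h8 := congrArg Fin.val h6
  simp at h8
  omega

/-- The set of the points of `A` which lie in `B`. -/
def rst {n : ℕ} (A B : Finset (Cube n)) : Finset A := univ.filter fun x => x.1 ∈ B

lemma card_rst {n : ℕ} (A B : Finset (Cube n)) (h : B ⊆ A) : (rst A B).card = B.card := by
  have : (rst A B).map (Function.Embedding.subtype _) = B := by
    ext x
    simp only [rst, mem_map, mem_filter, mem_univ, true_and, Function.Embedding.coe_subtype]
    constructor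
    · rintro ⟨y, hy, rfl⟩; exact hy
    · intro hx; exact ⟨⟨x, h hx⟩, hx, rfl⟩
  rw [← this, card_map]
  simp [this]

/-- A quantitative form: the walk on the two subcubes is not mixed before the time
`(2 ^ k - 1) / 7`. -/
theorem slow (hk : 2 ≤ k) (t : ℕ) (h : Mixed (two k) t) : ((2 : ℝ) ^ k - 1) / 7 ≤ t := by
  have hn : 0 < k + k := by omega
  have hA : (two k).Nonempty := ⟨_, two_top k⟩
  have hUs : cU k ⊆ two k := by rw [two_eq]; intro x hx; simp [hx]
  have hVs : cV k ⊆ two k := by rw [two_eq]; intro x hx; simp [hx]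
  have hp : 1 ≤ 2 ^ k := Nat.one_le_two_pow
  have hp4 : (4 : ℝ) ≤ 2 ^ k := by
    calc (4 : ℝ) = 2 ^ 2 := by norm_num
      _ ≤ 2 ^ k := pow_le_pow_right₀ (by norm_num) hk
  have hcU : ((rst (two k) (cU k)).card : ℝ) = 2 ^ k - 1 := by
    rw [card_rst _ _ hUs, card_cU, Nat.cast_sub hp]; simp
  have hcV : ((rst (two k) (cV k)).card : ℝ) = 2 ^ k - 1 := by
    rw [card_rst _ _ hVs, card_cV, Nat.cast_sub hp]; simp
  have hcA : ((two k).card : ℝ) = 2 * (2 ^ k - 1) + 1 := by
    rw [card_two]; push_cast [Nat.cast_sub hp]; ring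
  have h1 := transport hn (rst (two k) (cU k)) (rst (two k) (cV k)) ⟨_, two_top k⟩ ?_ ?_ t
  · have h2 : ∀ x ∈ rst (two k) (cU k), (1 : ℝ) / 7 ≤ ∑ y ∈ rst (two k) (cV k), (P (two k) ^ t) x y := by
      intro x _
      refine le_trans ?_ (mass hn hA t x (rst (two k) (cV k)))
      have h3 := h x
      rw [hcV, hcA]
      have h4 : (3 : ℝ) / 7 ≤ (2 ^ k - 1) / (2 * (2 ^ k - 1) + 1) := by
        rw [div_le_div_iff₀ (by norm_num) (by linarith)]
        linarith
      linarith
    have h3 : ∑ x ∈ rst (two k) (cU k), (1 : ℝ) / 7 ≤ t := (sum_le_sum h2).trans h1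
    rw [sum_const, nsmul_eq_mul, hcU] at h3
    linarith
  · rw [disjoint_left]
    intro x hx hy
    simp only [rst, mem_filter, mem_univ, true_and] at hx hy
    exact disjoint_left.mp (disj_UV k) hx hy
  · intro x hxV hxe y hy
    have hxU : x.1 ∈ cU k := by
      have := (Finset.ext_iff.mp (two_eq k) x.1).mp x.2
      rw [mem_insert, mem_union] at this
      rcases this with h | h | h
      · exact absurd (Subtype.ext h) hxe
      · exact h
      · exact absurd (by simpa [rst] using h) hxV
    have hyV : y.1 ∈ cV k := by simpa [rst] using hy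
    have hne : y ≠ x := by
      rintro rfl
      exact disjoint_left.mp (disj_UV k) hxU hyV
    unfold P
    rw [if_neg hne, filter_false_of_mem]
    · simp
    · intro i _
      exact no_step k x.1 y.1 hxU hyV i

end example_

/-- For every constant `C` there are `n ≥ 2` and a nonempty monotone subset `A` of the hypercube
`{0,1}^n` such that the mixing time of the lazy censored walk on `A` is larger than `C n log n`:
every `t` for which the walk is within total variation distance `1/4` of the uniform distribution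
from all starts after `t` steps is larger than `C n log n`. -/
theorem result : ∀ C : ℝ, ∃ n : ℕ, 2 ≤ n ∧ ∃ A : Finset (Cube n), A.Nonempty ∧ IsUp A ∧
    ∀ t : ℕ, Mixed A t → C * (n * Real.log n) < t := by
  intro C
  -- `C 2k log (2k) < (2 ^ k - 1) / 7` for large `k`
  obtain ⟨k, hk, hC⟩ : ∃ k : ℕ, 2 ≤ k ∧
      C * (((k + k : ℕ) : ℝ) * Real.log ((k + k : ℕ) : ℝ)) < ((2 : ℝ) ^ k - 1) / 7 := by
    have h1 : Filter.Tendsto (fun k : ℕ => (k : ℝ) ^ 2 / (2 : ℝ) ^ k) Filter.atTop (nhds 0) :=
      tendsto_pow_const_div_const_pow_of_one_lt 2 (by norm_num)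
    have h2 : ∀ᶠ k : ℕ in Filter.atTop, (k : ℝ) ^ 2 / (2 : ℝ) ^ k < 1 / (56 * (|C| + 1)) :=
      h1.eventually (gt_mem_nhds (by positivity))
    obtain ⟨k, hk2, hk⟩ := (h2.and (Filter.eventually_ge_atTop 2)).exists
    refine ⟨k, hk, ?_⟩
    have hp : (0 : ℝ) < 2 ^ k := by positivity
    have hC1 : 0 < |C| + 1 := by positivity
    rw [div_lt_div_iff₀ hp (by positivity)] at hk2
    have hk' : (2 : ℝ) ≤ k := by exact_mod_cast hk
    have hlog : Real.log ((k + k : ℕ) : ℝ) ≤ ((k + k : ℕ) : ℝ) :=
      (Real.log_le_sub_one_of_pos (by push_cast; linarith)).trans (by linarith)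
    have hlog0 : 0 ≤ Real.log ((k + k : ℕ) : ℝ) := Real.log_nonneg (by push_cast; linarith)
    have h3 : C * (((k + k : ℕ) : ℝ) * Real.log ((k + k : ℕ) : ℝ)) ≤
        (|C| + 1) * (((k + k : ℕ) : ℝ) * ((k + k : ℕ) : ℝ)) := by
      have h4 : ((k + k : ℕ) : ℝ) * Real.log ((k + k : ℕ) : ℝ) ≤
          ((k + k : ℕ) : ℝ) * ((k + k : ℕ) : ℝ) := mul_le_mul_of_nonneg_left hlog (by positivity)
      have h5 : 0 ≤ ((k + k : ℕ) : ℝ) * Real.log ((k + k : ℕ) : ℝ) := by positivity
      have h6 : C ≤ |C| + 1 := (le_abs_self C).trans (by linarith)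
      exact (mul_le_mul_of_nonneg_right h6 h5).trans (mul_le_mul_of_nonneg_left h4 hC1.le)
    push_cast at h3 ⊢
    have h7 : (2 : ℝ) ≤ 2 ^ k := by
      calc (2 : ℝ) = 2 ^ 1 := by norm_num
        _ ≤ 2 ^ k := pow_le_pow_right₀ (by norm_num) (by omega)
    nlinarith
  exact ⟨k + k, by omega, two k, ⟨_, two_top k⟩, two_up k, fun t ht =>
    lt_of_lt_of_le hC (slow k hk t ht)⟩

end Pool.Agent.Results.MP_52661b_pr.SlowMonotoneSets
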